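import Mathlib
import Pool.Agent.MP_52008a_ag.Final

namespace Pool.Agent.Results.MP_52008a_ag.PetriGenusEleven

open Pool.Agent.MP_52008a_ag

/-- A Petri curve of genus eleven over the complex numbers with Clifford index five and rank two
Clifford index at most nine halves. -/
theorem result : ∃ (F : Type) (_ : Field F) (_ : Algebra ℂ F),
    Algebra.EssFiniteType ℂ F ∧ Algebra.trdeg ℂ F = 1 ∧ genus ℂ F = 11 ∧ IsPetri ℂ F ∧
      IsLeast (cliffSet ℂ F) 5 ∧ ∃ γ ≤ (9 / 2 : ℚ), IsLeast (cliffSetRank ℂ F 2) γ := by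
  obtain ⟨e⟩ := hahn_equiv
  exact main_of_equiv ℂ ℂ e

end Pool.Agent.Results.MP_52008a_ag.PetriGenusEleven
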